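import Mathlib
import Pool.Agent.Work.MP_d04c84_co.Defs
import Pool.Agent.Work.MP_d04c84_co.Example

set_option autoImplicit false

namespace Pool.Agent.Results.MP_d04c84_co.Main

open Pool.Agent.Work.MP_d04c84_co

/-- There is an idempotent `p` in the smallest ideal of `(βℕ, ⊙)`, all of whose members are
additively central, and a member `A` of `p` containing no configuration
`{m, n, m + n, m 2 ^ n}`. -/
theorem result :
    ∃ p : Ultrafilter ℕ+, p ∈ K umul ∧ umul p p = p ∧ (∀ B ∈ p, AddCentral B) ∧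
      ∃ A ∈ p, ¬ ∃ m n : ℕ+, m ∈ A ∧ n ∈ A ∧ m + n ∈ A ∧ m * 2 ^ (n : ℕ) ∈ A :=
  exists_counterexample

end Pool.Agent.Results.MP_d04c84_co.Main
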